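import Mathlib
import Pool.Agent.Helper56.Koszul.Base

set_option autoImplicit false

namespace Pool.Agent.Helper80.KZ

open Pool.Agent.Helper56.Koszul

universe u

variable {k : Type u} [Field k]

lemma tdeg_add (l m : Lam) : tdeg (l + m) = tdeg l + tdeg m := by
  simp [tdeg, Finset.sum_add_distrib]

lemma tdeg_zero : tdeg (0 : Lam) = 0 := by simp [tdeg]

lemma eq_zero_of_tdeg {l : Lam} (h : tdeg l = 0) : l = 0 := by
  have h1 : ∀ i, l.1 i = 0 := by
    intro i
    exact (Finset.sum_eq_zero_iff.1 h) i (Finset.mem_univ i)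
  apply Subtype.ext
  funext i
  simpa using h1 i

/-- the projection onto the degree `d` part -/
noncomputable def pr (k : Type u) [Field k] (d : ℕ) : SR k →+ SR k where
  toFun f := AddMonoidAlgebra.ofCoeff (f.coeff.filter (fun l => tdeg l = 3 * d))
  map_zero' := by
    apply AddMonoidAlgebra.ext
    ext l
    simp [Finsupp.filter_apply]
  map_add' f g := by
    apply AddMonoidAlgebra.ext
    ext l
    by_cases h : tdeg l = 3 * d <;> simp [Finsupp.filter_apply, h]

lemma pr_coeff (d : ℕ) (f : SR k) (l : Lam) :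
    (pr k d f).coeff l = if tdeg l = 3 * d then f.coeff l else 0 := by
  simp [pr, Finsupp.filter_apply]

lemma pr_single (d : ℕ) (l : Lam) (c : k) :
    pr k d (AddMonoidAlgebra.single l c) =
      if tdeg l = 3 * d then AddMonoidAlgebra.single l c else 0 := by
  apply AddMonoidAlgebra.ext
  ext m
  rw [pr_coeff]
  by_cases h : l = m
  · subst h
    by_cases h1 : tdeg l = 3 * d <;> simp [h1]
  · by_cases h1 : tdeg l = 3 * d <;> by_cases h2 : tdeg m = 3 * d <;>
      simp [h1, h2, Finsupp.single_apply, h]

lemma sum_single (x : SR k) :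
    x = ∑ l ∈ x.coeff.support, AddMonoidAlgebra.single l (x.coeff l) := by
  apply AddMonoidAlgebra.ext
  rw [AddMonoidAlgebra.coeff_sum]
  simp only [AddMonoidAlgebra.coeff_single]
  exact (Finsupp.sum_single x.coeff).symm

lemma pr_mul_single (d : ℕ) (x : SR k) (hx : x ∈ S1 k) (m : Lam) (c : k) :
    pr k (d + 1) (x * AddMonoidAlgebra.single m c) =
      x * pr k d (AddMonoidAlgebra.single m c) ∧
      pr k 0 (x * AddMonoidAlgebra.single m c) = 0 := by
  have hx' : ∀ l ∈ x.coeff.support, tdeg l = 3 := fun l hl => hx l (by simpa using hl)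
  have h1 : x * AddMonoidAlgebra.single m c =
      ∑ l ∈ x.coeff.support, AddMonoidAlgebra.single (l + m) (x.coeff l * c) := by
    conv_lhs => rw [sum_single x]
    rw [Finset.sum_mul]
    simp only [AddMonoidAlgebra.single_mul_single]
  constructor
  · rw [pr_single]
    by_cases h : tdeg m = 3 * d
    · rw [if_pos h, h1, map_sum]
      refine Finset.sum_congr rfl fun l hl => ?_
      rw [pr_single, if_pos]
      rw [tdeg_add, hx' l hl, h]; ring
    · rw [if_neg h, mul_zero, h1, map_sum]
      refine Finset.sum_eq_zero fun l hl => ?_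
      rw [pr_single, if_neg]
      rw [tdeg_add, hx' l hl]; omega
  · rw [h1, map_sum]
    refine Finset.sum_eq_zero fun l hl => ?_
    rw [pr_single, if_neg]
    rw [tdeg_add, hx' l hl]; omega

lemma pr_mul (d : ℕ) (x : SR k) (hx : x ∈ S1 k) (y : SR k) :
    pr k (d + 1) (x * y) = x * pr k d y := by
  rw [sum_single y, Finset.mul_sum, map_sum, map_sum, Finset.mul_sum]
  exact Finset.sum_congr rfl fun l _ => (pr_mul_single d x hx l _).1

lemma pr_zero_mul (x : SR k) (hx : x ∈ S1 k) (y : SR k) : pr k 0 (x * y) = 0 := by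
  rw [sum_single y, Finset.mul_sum, map_sum]
  exact Finset.sum_eq_zero fun l _ => (pr_mul_single 0 x hx l _).2

lemma pr_zero_eq (x : SR k) : pr k 0 x = AddMonoidAlgebra.single 0 (x.coeff 0) := by
  apply AddMonoidAlgebra.ext
  ext l
  rw [pr_coeff]
  by_cases h : tdeg l = 0
  · have := eq_zero_of_tdeg h
    subst this
    simp [tdeg_zero]
  · rw [if_neg (by omega)]
    have : (0 : Lam) ≠ l := by
      rintro rfl; exact h tdeg_zero
    simp [Finsupp.single_apply, this]

/-- KZ-4 (grading data of the monoid algebra). -/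
theorem exists_grData (k : Type u) [Field k] : ∃ D : GrData (SR k), D.S1 = S1 k := by
  refine ⟨{ S1 := S1 k, p0 := pr k 0, p1 := pr k 1, p2 := pr k 2,
            p1_mem := ?_, p1_of_mem := ?_, p2_mul := ?_, p1_mul := ?_, p0_mul := ?_,
            p0_one := ?_, p0_p0_mul := ?_, p0_mul_mem := ?_ }, rfl⟩
  · intro x l hl
    rw [pr_coeff] at hl
    by_contra h
    exact hl (if_neg (by omega))
  · intro x hx
    apply AddMonoidAlgebra.ext
    ext l
    rw [pr_coeff]
    by_cases h : x.coeff l = 0
    · simp [h]
    · rw [if_pos]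
      have := hx l h
      omega
  · intro x hx y
    exact pr_mul 1 x hx y
  · intro x hx y
    exact pr_mul 0 x hx y
  · intro x hx y
    exact pr_zero_mul x hx y
  · rw [AddMonoidAlgebra.one_def, pr_single, if_pos (by simp [tdeg_zero])]
  · intro x y
    rw [pr_zero_eq x, pr_zero_eq y, AddMonoidAlgebra.single_mul_single, pr_single,
      if_pos (by simp [tdeg_zero])]
  · intro x y hy l hl
    have h1 : (AddMonoidAlgebra.single (0 : Lam) (x.coeff 0) * y).coeff l =
        x.coeff 0 * y.coeff l := by
      rw [sum_single y, Finset.mul_sum]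
      simp only [AddMonoidAlgebra.single_mul_single, zero_add, AddMonoidAlgebra.coeff_sum,
        AddMonoidAlgebra.coeff_single, Finsupp.finsetSum_apply, Finset.mul_sum]
      refine Finset.sum_congr rfl fun m _ => ?_
      by_cases h : m = l
      · subst h; simp
      · simp [h]
    rw [pr_zero_eq x, h1] at hl
    exact hy l (by
      intro h
      exact hl (by rw [h, mul_zero]))

end Pool.Agent.Helper80.KZ
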